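import Mathlib
import Pool.Agent.Lib.MP_c385f6_ag.Core

set_option autoImplicit false

/-!
Project RT (ramified twists, `p` odd): definitions.  Blueprint: team store `rt_blueprint.md`.
-/

namespace Pool.Agent.Lib.MP_c385f6_ag.RT

section
variable {k K Ω : Type*} [Field k] [Field K] [Field Ω] [Algebra k K] [Algebra k Ω]
  [Algebra K Ω] [IsScalarTower k K Ω]

/-- Inertia groups act trivially on the maximal unramified extension. -/
theorem inertia_ur {B : ValuationSubring Ω} (hB : ∀ c : k, algebraMap k Ω c ∈ B)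
    {σ : Ω ≃ₐ[K] Ω} (hσ : σ ∈ inertia K B) {z : Ω} (hz : z ∈ maxUnramified k K Ω) : σ z = z := by
  rw [maxUnramified, IntermediateField.mem_fixedField_iff] at hz
  exact hz σ (le_iSup (fun B : {B : ValuationSubring Ω // ∀ c : k, algebraMap k Ω c ∈ B} =>
    inertia K B.1) ⟨B, hB⟩ hσ)

/-- If `γ ^ l` lies in the maximal unramified extension and `γ` has at each place the value of an
element of it, then `γ` lies in it. -/
theorem mem_ur_of_pow {l : ℕ} (hl : l ≠ 0) {γ : Ω} (hγ : γ ^ l ∈ maxUnramified k K Ω)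
    (h : ∀ B : ValuationSubring Ω, (∀ c : k, algebraMap k Ω c ∈ B) →
      ∃ θ ∈ maxUnramified k K Ω, θ ≠ 0 ∧ B.valuation γ = B.valuation θ) :
    γ ∈ maxUnramified k K Ω := by
  refine mem_maxUnramified fun B hB σ hσ => ?_
  obtain ⟨θ, hθ, hθ0, hv⟩ := h B hB
  exact inertia_kummer hB hσ hl hθ0 (inertia_ur hB hσ hθ) (inertia_ur hB hσ hγ) hv

end

/-! ### sections (copies of lemmas of `Fixed.lean`, which cannot be imported together with
`PlaceMain.lean`) -/

section
variable {k K Ω : Type*} [Field k] [CharZero k] [Field K] [Field Ω] [Algebra k K] [Algebra k Ω]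
  [Algebra K Ω] [IsScalarTower k K Ω] [IsAlgClosure K Ω]

omit [Algebra k K] [IsScalarTower k K Ω] in
/-- A constant fixed by all automorphisms of `k̄` lies in `k`. -/
theorem const_of_fixed (K : Type*) [Field K] [Algebra K Ω] [IsAlgClosure K Ω]
    (κ : algebraicClosure k Ω) (h : ∀ g : AbsGal k Ω, g κ = κ) :
    ∃ δ : k, algebraMap k (algebraicClosure k Ω) δ = κ := by
  have hac : IsAlgClosed Ω := IsAlgClosure.isAlgClosed K
  have hacF : IsAlgClosed (algebraicClosure k Ω) := IsAlgClosure.isAlgClosed k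
  have h1 : κ ∈ IntermediateField.fixedField (⊤ : Subgroup (AbsGal k Ω)) := by
    rw [IntermediateField.mem_fixedField_iff]
    intro g _
    exact h g
  rw [InfiniteGalois.fixedField_bot] at h1
  exact IntermediateField.mem_bot.1 h1

variable {s : AbsGal k Ω →* PiOne k K Ω} (hs : IsSection k K Ω s)
include hs

omit [CharZero k] [IsAlgClosure K Ω] in
theorem section_const (g : AbsGal k Ω) (c : algebraicClosure k Ω) :
    s g (constHom k K Ω c) = constHom k K Ω (g c) := by
  apply Subtype.ext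
  rw [coe_constHom]
  exact hs.restrict g c (constHom k K Ω c) rfl

omit [CharZero k] in
theorem section_nhds (γ : maxUnramified k K Ω) :
    {g : AbsGal k Ω | s g γ = γ} ∈ nhds (1 : AbsGal k Ω) := by
  have h1 : IsOpen (MulAction.stabilizer (PiOne k K Ω) γ : Set (PiOne k K Ω)) := by
    have : Algebra.IsAlgebraic K Ω := IsAlgClosure.isAlgebraic
    have : Algebra.IsIntegral K (maxUnramified k K Ω) := inferInstance
    exact stabilizer_isOpen_of_isIntegral γ
  have h3 : IsOpen (s ⁻¹' (MulAction.stabilizer (PiOne k K Ω) γ : Set (PiOne k K Ω))) :=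
    h1.preimage hs.continuous
  refine h3.mem_nhds ?_ |> Filter.mem_of_superset <| ?_
  · show s 1 ∈ MulAction.stabilizer (PiOne k K Ω) γ
    rw [map_one]; exact Subgroup.one_mem _
  · intro g hg
    exact MulAction.mem_stabilizer_iff.1 hg

end

/-! ### local fields -/

/-- The inertia group of an absolute value `v` of `C`. -/
def Inert (k : Type*) {C : Type*} [Field k] [Field C] [Algebra k C] (v : AbsoluteValue C ℝ) :
    Set (C ≃ₐ[k] C) :=
  {g | ∀ x, v x ≤ 1 → v (g x - x) < 1}

/-- Everything we need from local field theory: `k` is a `p`-adic field, `p` odd, `C` an algebraic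
closure, `v` the absolute value of `C`, `q` the number of elements of the residue field of `k`. -/
structure LF (k : Type*) {C : Type*} [NormedField k] [Field C] [Algebra k C]
    (v : AbsoluteValue C ℝ) (q : ℕ) : Prop where
  na : ∀ x y, v (x + y) ≤ max (v x) (v y)
  base : ∀ c : k, v (algebraMap k C c) = ‖c‖
  inv : ∀ (g : C ≃ₐ[k] C) (x : C), v (g x) = v x
  two : v 2 = 1
  root : ∀ (n : ℕ) (ζ : C), ζ ^ 2 ^ n = 1 → ζ ≠ 1 → v (ζ - 1) = 1
  /-- elements fixed by inertia have values in the value group of `k` -/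
  unr : ∀ b : C, (∀ g ∈ Inert k v, g b = b) → ∃ c : k, v b = ‖c‖
  /-- the value group of `k` modulo squares has at most two elements -/
  par : ∀ a b : k, (∀ z : k, ‖z‖ ^ 2 ≠ ‖a‖) → (∀ z : k, ‖z‖ ^ 2 ≠ ‖b‖) →
    ∃ z : k, ‖z‖ ^ 2 = ‖a * b‖
  one_lt : 1 < q
  /-- powers of the Frobenius -/
  frob : ∀ (S : Finset C) (m : ℕ), (∀ x ∈ S, v x ≤ 1) →
    ∃ g : C ≃ₐ[k] C, ∀ x ∈ S, v (g x - x ^ q ^ m) < 1
  /-- the residue field of `C` is algebraic over a finite field -/
  res : ∀ S : Finset C, (∀ x ∈ S, v x ≤ 1) → ∃ m, 0 < m ∧ ∀ x ∈ S, v (x ^ q ^ m - x) < 1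

/-! ### elliptic curves with rational points of order two -/

section
variable {C : Type*} [Field C]

/-- The curve `y² = (x - e 0) (x - e 1) (x - e 2)`. -/
def EW (e : Fin 3 → C) : WeierstrassCurve.Affine C :=
  ⟨0, -(e 0 + e 1 + e 2), 0, e 0 * e 1 + e 0 * e 2 + e 1 * e 2, -(e 0 * e 1 * e 2)⟩

/-- The points of the curve. -/
abbrev Pt (e : Fin 3 → C) : Type _ := (EW e).Point

/-- The point with the coordinates `x`, `y` (zero if this is not a point). -/
noncomputable def mkPt (e : Fin 3 → C) (x y : C) : Pt e :=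
  open Classical in
  if h : (EW e).Nonsingular x y then WeierstrassCurve.Affine.Point.some x y h
  else WeierstrassCurve.Affine.Point.zero

/-- `(x, y)` is on the curve. -/
def OnC (e : Fin 3 → C) (x y : C) : Prop := y ^ 2 = (x - e 0) * (x - e 1) * (x - e 2)

/-- The slope of the tangent. -/
def tm (e : Fin 3 → C) (x y : C) : C :=
  (3 * x ^ 2 - 2 * (e 0 + e 1 + e 2) * x + (e 0 * e 1 + e 0 * e 2 + e 1 * e 2)) / (2 * y)

/-- The first coordinate of the double of a point. -/
def tX (e : Fin 3 → C) (x y : C) : C := tm e x y ^ 2 + (e 0 + e 1 + e 2) - 2 * x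

/-- The second coordinate of the double of a point. -/
def tY (e : Fin 3 → C) (x y : C) : C := -(y + tm e x y * (tX e x y - x))

/-- The derivative of the cubic polynomial at `e i`. -/
def de (e : Fin 3 → C) (i : Fin 3) : C := (e i - e (i + 1)) * (e i - e (i + 2))

/-- The coordinates of the sum of `(x, y)` and `(e i, 0)`. -/
def sX (e : Fin 3 → C) (i : Fin 3) (x : C) : C := e i + de e i / (x - e i)

/-- The coordinates of the sum of `(x, y)` and `(e i, 0)`. -/
def sY (e : Fin 3 → C) (i : Fin 3) (x y : C) : C := -(y * de e i) / (x - e i) ^ 2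

/-- The action of an automorphism and of a sign on the points. -/
noncomputable def actP (e : Fin 3 → C) (σ : C ≃+* C) (ε : C) : Pt e → Pt e
  | .zero => 0
  | .some x y _ => mkPt e (σ x) (ε * σ y)

variable {L : Type*} [Field L] (ι : C →+* L) (e : Fin 3 → C) (X Y : L)

/-- The function with divisor `2 (z) - (2 z) - (0)`, `z = (x, y)`, at the point `(X, Y)`. -/
def hh (x y : C) : L := (Y - ι y - ι (tm e x y) * (X - ι x)) / (X - ι (tX e x y))

/-- The function with divisor `(z) + (e i) - (z + e i) - (0)`, `z = (x, y)`, at `(X, Y)`. -/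
def gg (i : Fin 3) (x y : C) : L :=
  (Y - ι (y / (x - e i)) * (X - ι (e i))) / (X - ι (sX e i x))

/-- `r` is, up to roots of unity of order a power of two, the value at `(X, Y)` of a function with
`2 ^ n`-th power of divisor `2 ^ n (z) - 2 ^ n (0)`, `n` at least the order of `z`. -/
def Good : ℕ → Pt e → L → Prop
  | 0, _, _ => False
  | n + 1, z, r => r ≠ 0 ∧ ∃ (ζ : C) (N : ℕ), ζ ^ 2 ^ N = 1 ∧
    ((∃ i, z = mkPt e (e i) 0 ∧ r ^ 2 = ι ζ * (X - ι (e i))) ∨
      ∃ (x y : C) (r' : L), OnC e x y ∧ y ≠ 0 ∧ z = mkPt e x y ∧ Good n (mkPt e (tX e x y)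
        (tY e x y)) r' ∧ r ^ 2 = ι ζ * hh ι e X Y x y * r')

end

end Pool.Agent.Lib.MP_c385f6_ag.RT
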