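import Mathlib
import Pool.Agent.Lib.MP_c385f6_ag.RT.Defs

set_option autoImplicit false

/-!
A5: powers of the Frobenius lift to automorphisms of the algebraic closure.
-/

namespace Pool.Agent.Lib.MP_c385f6_ag.RT

namespace FrobAux

section
variable {C : Type*} [Field C] (v : AbsoluteValue C ℝ) (na : ∀ x y, v (x + y) ≤ max (v x) (v y))
include na

theorem sub_le (x y : C) : v (x - y) ≤ max (v x) (v y) := by
  have h := na x (-y)
  rwa [v.map_neg, ← sub_eq_add_neg] at h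

theorem sum_lt {ι : Type*} (s : Finset ι) (f : ι → C) (h : ∀ i ∈ s, v (f i) < 1) :
    v (∑ i ∈ s, f i) < 1 := by
  classical
  induction s using Finset.induction_on with
  | empty => simp
  | insert a s ha ih =>
    rw [Finset.sum_insert ha]
    exact lt_of_le_of_lt (na _ _) (max_lt (h _ (Finset.mem_insert_self _ _))
      (ih fun i hi => h i (Finset.mem_insert_of_mem hi)))

/-- The ring of integers. -/
def OO : Subring C where
  carrier := {x | v x ≤ 1}
  mul_mem' {a b} ha hb := by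
    change v (a * b) ≤ 1
    rw [v.map_mul]
    exact mul_le_one₀ ha (v.nonneg _) hb
  one_mem' := by simp
  add_mem' {a b} ha hb := (na a b).trans (max_le ha hb)
  zero_mem' := by simp
  neg_mem' {a} ha := by simpa [v.map_neg] using ha

theorem mem_OO {x : C} : x ∈ OO v na ↔ v x ≤ 1 := Iff.rfl

theorem add_pow_lt {p : ℕ} (hp : p.Prime) (hv : v (p : C) < 1) (f : ℕ) {x y : C} (hx : v x ≤ 1)
    (hy : v y ≤ 1) : v ((x + y) ^ p ^ f - x ^ p ^ f - y ^ p ^ f) < 1 := by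
  obtain ⟨r, hr⟩ := exists_add_pow_prime_pow_eq (R := OO v na) hp ⟨x, hx⟩ ⟨y, hy⟩ f
  have h := congrArg Subtype.val hr
  push_cast at h
  have h1 : (x + y) ^ p ^ f - x ^ p ^ f - y ^ p ^ f = (p : C) * (x * y * (r : C)) := by
    rw [h]; ring
  rw [h1, v.map_mul]
  have h2 : v (x * y * (r : C)) ≤ 1 := by
    rw [v.map_mul, v.map_mul]
    exact mul_le_one₀ (mul_le_one₀ hx (v.nonneg _) hy) (v.nonneg _) r.2
  calc v (p : C) * v (x * y * (r : C)) ≤ v (p : C) * 1 :=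
        mul_le_mul_of_nonneg_left h2 (v.nonneg _)
    _ < 1 := by rwa [mul_one]

theorem sum_mem {ι : Type*} (s : Finset ι) (f : ι → C) (h : ∀ i ∈ s, v (f i) ≤ 1) :
    v (∑ i ∈ s, f i) ≤ 1 :=
  (OO v na).sum_mem h

theorem sum_pow_lt {p : ℕ} (hp : p.Prime) (hv : v (p : C) < 1) (f : ℕ) {ι : Type*}
    (s : Finset ι) (a : ι → C) (h : ∀ i ∈ s, v (a i) ≤ 1) :
    v ((∑ i ∈ s, a i) ^ p ^ f - ∑ i ∈ s, a i ^ p ^ f) < 1 := by
  classical
  induction s using Finset.induction_on with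
  | empty => simp [hp.ne_zero]
  | insert b s hb ih =>
    rw [Finset.sum_insert hb, Finset.sum_insert hb]
    have h1 : v (a b) ≤ 1 := h _ (Finset.mem_insert_self _ _)
    have h2 : ∀ i ∈ s, v (a i) ≤ 1 := fun i hi => h i (Finset.mem_insert_of_mem hi)
    have h3 := add_pow_lt v na hp hv f h1 (sum_mem v na s a h2)
    have h4 : (a b + ∑ i ∈ s, a i) ^ p ^ f - (a b ^ p ^ f + ∑ i ∈ s, a i ^ p ^ f) =
        ((a b + ∑ i ∈ s, a i) ^ p ^ f - a b ^ p ^ f - (∑ i ∈ s, a i) ^ p ^ f) +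
          ((∑ i ∈ s, a i) ^ p ^ f - ∑ i ∈ s, a i ^ p ^ f) := by ring
    rw [h4]
    exact lt_of_le_of_lt (na _ _) (max_lt h3 (ih h2))

theorem pow_sub_lt (n : ℕ) {x y : C} (hx : v x ≤ 1) (hy : v y ≤ 1) (h : v (x - y) < 1) :
    v (x ^ n - y ^ n) < 1 := by
  obtain ⟨r, hr⟩ := sub_dvd_pow_sub_pow (⟨x, hx⟩ : OO v na) ⟨y, hy⟩ n
  have h1 := congrArg Subtype.val hr
  push_cast at h1
  rw [h1, v.map_mul]
  calc v (x - y) * v (r : C) ≤ v (x - y) * 1 :=
        mul_le_mul_of_nonneg_left r.2 (v.nonneg _)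
    _ < 1 := by rwa [mul_one]

omit na in
theorem exists_lt (s : Multiset C) (h : v s.prod < 1) : ∃ a ∈ s, v a < 1 := by
  induction s using Multiset.induction_on with
  | empty => simp at h
  | cons a s ih =>
    rw [Multiset.prod_cons, v.map_mul] at h
    by_cases h1 : v a < 1
    · exact ⟨a, Multiset.mem_cons_self _ _, h1⟩
    · by_cases h2 : v s.prod < 1
      · obtain ⟨b, hb, hb'⟩ := ih h2
        exact ⟨b, Multiset.mem_cons_of_mem hb, hb'⟩
      · push Not at h1 h2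
        exact absurd h (not_lt.2 (one_le_mul_of_one_le_of_one_le h1 h2))

omit na in
theorem v_root {N : ℕ} (hN : N ≠ 0) {ζ : C} (h : ζ ^ N = 1) : v ζ = 1 := by
  have h1 : v ζ ^ N = 1 := by rw [← map_pow, h, v.map_one]
  exact (pow_eq_one_iff_of_nonneg (v.nonneg _) hN).1 h1

omit na in
/-- Residue classes are those of zero and of roots of unity. -/
theorem teich {N : ℕ} (hN : 0 < N) {ζ : C} (hζ : IsPrimitiveRoot ζ N) {x : C}
    (h : v (x ^ (N + 1) - x) < 1) : v x < 1 ∨ ∃ i, v (x - ζ ^ i) < 1 := by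
  by_cases h1 : v x < 1
  · exact Or.inl h1
  right
  have h2 : x ^ (N + 1) - x = x * (x ^ N - 1 ^ N) := by rw [one_pow]; ring
  rw [h2, v.map_mul] at h
  have h3 : v (x ^ N - 1 ^ N) < 1 := by
    by_contra h4
    push Not at h1 h4
    exact absurd h (not_lt.2 (one_le_mul_of_one_le_of_one_le h1 h4))
  rw [hζ.pow_sub_pow_eq_prod_sub_mul x 1 hN] at h3
  obtain ⟨a, ha, ha'⟩ := exists_lt v _ h3
  rw [Multiset.mem_map] at ha
  obtain ⟨μ, hμ, rfl⟩ := ha
  have h5 : μ ^ N = 1 := (Polynomial.mem_nthRootsFinset hN 1).1 hμ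
  have : NeZero N := ⟨hN.ne'⟩
  obtain ⟨i, -, hi⟩ := hζ.eq_pow_of_pow_eq_one h5
  refine ⟨i, ?_⟩
  rw [hi]
  simpa using ha'

end

/-- The Frobenius on a root of unity. -/
theorem frob_one (k : Type*) [NormedField k] [CharZero k] (C : Type*) [Field C] [Algebra k C]
    [IsAlgClosure k C] (v : AbsoluteValue C ℝ)
    (na : ∀ x y, v (x + y) ≤ max (v x) (v y)) (hb : ∀ c : k, v (algebraMap k C c) = ‖c‖)
    (p f : ℕ) (hp : p.Prime) (hv : v (p : C) < 1)
    (hr : ∀ (m : ℕ) (ζ : C), ¬ p ∣ m → ζ ^ m = 1 → ζ ≠ 1 → v (ζ - 1) = 1)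
    (hq : ∀ c : k, ‖c‖ ≤ 1 → ‖c ^ p ^ f - c‖ < 1) {N : ℕ} (hN : N ≠ 0) (hpN : ¬ p ∣ N)
    {ζ : C} (hζ : ζ ^ N = 1) : ∃ σ : C ≃ₐ[k] C, σ ζ = ζ ^ p ^ f := by
  have : IsAlgClosed C := IsAlgClosure.isAlgClosed k
  have : Normal k C := IsAlgClosure.normal k C
  have : Algebra.IsAlgebraic k C := IsAlgClosure.isAlgebraic
  have hint : IsIntegral k ζ := Algebra.IsIntegral.isIntegral ζ
  set P := minpoly k ζ with hP
  set PC := P.map (algebraMap k C) with hPC
  have hmonic : PC.Monic := (minpoly.monic hint).map _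
  have hprod : PC = (PC.roots.map fun a => Polynomial.X - Polynomial.C a).prod :=
    (IsAlgClosed.splits PC).eq_prod_roots_of_monic hmonic
  -- the roots
  have hroot : ∀ a ∈ PC.roots, a ^ N = 1 := by
    intro a ha
    have h1 : P ∣ (Polynomial.X ^ N - 1 : Polynomial k) := by
      apply minpoly.dvd
      simp [hζ]
    obtain ⟨R, hR⟩ := h1
    have h2 : Polynomial.aeval a P = 0 := by
      have h3 := (Polynomial.mem_roots hmonic.ne_zero).1 ha
      rwa [Polynomial.IsRoot, hPC, Polynomial.eval_map_algebraMap] at h3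
    have h4 := congrArg (Polynomial.aeval a) hR
    rw [map_mul, h2, zero_mul] at h4
    simp only [map_sub, map_pow, Polynomial.aeval_X, map_one] at h4
    exact sub_eq_zero.1 h4
  -- the coefficients
  have hcoef : ∀ i, ‖P.coeff i‖ ≤ 1 := by
    intro i
    have h1 : PC ∈ Polynomial.lifts (OO v na).subtype := by
      rw [hprod]
      refine Subsemiring.multiset_prod_mem _ _ fun q hq' => ?_
      rw [Multiset.mem_map] at hq'
      obtain ⟨a, ha, rfl⟩ := hq'
      rw [Polynomial.mem_lifts]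
      refine ⟨Polynomial.X - Polynomial.C ⟨a, (v_root v hN (hroot a ha)).le⟩, ?_⟩
      simp
    rw [Polynomial.lifts_iff_coeff_lifts] at h1
    obtain ⟨c, hc⟩ := h1 i
    rw [hPC, Polynomial.coeff_map] at hc
    rw [← hb, ← hc]
    exact c.2
  have hvζ : v ζ = 1 := v_root v hN hζ
  -- the value at `ζ ^ q`
  have hval : v (Polynomial.aeval (ζ ^ p ^ f) P) < 1 := by
    have h0 : Polynomial.aeval ζ P = 0 := minpoly.aeval k ζ
    have h1 := sum_pow_lt v na hp hv f (Finset.range (P.natDegree + 1))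
      (fun i => algebraMap k C (P.coeff i) * ζ ^ i) (fun i _ => by
        rw [v.map_mul, v.map_pow, hvζ, one_pow, mul_one, hb]
        exact hcoef i)
    have h2 : ∑ i ∈ Finset.range (P.natDegree + 1), algebraMap k C (P.coeff i) * ζ ^ i = 0 := by
      rw [← h0, Polynomial.aeval_eq_sum_range]
      exact Finset.sum_congr rfl fun i _ => (Algebra.smul_def _ _).symm
    rw [h2, zero_pow (pow_ne_zero _ hp.ne_zero), zero_sub, v.map_neg] at h1
    have h3 : Polynomial.aeval (ζ ^ p ^ f) P =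
        ∑ i ∈ Finset.range (P.natDegree + 1), (algebraMap k C (P.coeff i) * ζ ^ i) ^ p ^ f -
        ∑ i ∈ Finset.range (P.natDegree + 1),
          algebraMap k C (P.coeff i ^ p ^ f - P.coeff i) * (ζ ^ p ^ f) ^ i := by
      rw [Polynomial.aeval_eq_sum_range, ← Finset.sum_sub_distrib]
      refine Finset.sum_congr rfl fun i _ => ?_
      rw [Algebra.smul_def, map_sub, map_pow, mul_pow, ← pow_mul, ← pow_mul, mul_comm i]
      ring
    rw [h3]
    refine lt_of_le_of_lt (sub_le v na _ _) (max_lt h1 (sum_lt v na _ _ fun i _ => ?_))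
    rw [v.map_mul, v.map_pow, v.map_pow, hvζ, one_pow, one_pow, mul_one, hb]
    exact hq _ (hcoef i)
  -- a root congruent to `ζ ^ q`
  have h1 : Polynomial.aeval (ζ ^ p ^ f) P =
      (PC.roots.map fun a => ζ ^ p ^ f - a).prod := by
    rw [← Polynomial.eval_map_algebraMap, ← hPC]
    conv_lhs => rw [hprod]
    rw [Polynomial.eval_multiset_prod, Multiset.map_map]
    congr 1
    exact Multiset.map_congr rfl fun a _ => by simp
  rw [h1] at hval
  obtain ⟨a, ha, ha'⟩ := exists_lt v _ hval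
  rw [Multiset.mem_map] at ha
  obtain ⟨a, ha, rfl⟩ := ha
  have haN := hroot a ha
  have hva : v a = 1 := v_root v hN haN
  have ha0 : a ≠ 0 := by
    rintro rfl
    simp at hva
  have h2 : ζ ^ p ^ f = a := by
    by_contra h3
    have h4 : (ζ ^ p ^ f / a) ^ N = 1 := by
      rw [div_pow, haN, div_one, ← pow_mul, mul_comm, pow_mul, hζ, one_pow]
    have h5 : ζ ^ p ^ f / a ≠ 1 := by
      rw [Ne, div_eq_one_iff_eq ha0]
      exact h3
    have h6 := hr N _ hpN h4 h5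
    have h7 : ζ ^ p ^ f - a = (ζ ^ p ^ f / a - 1) * a := by
      field_simp
    rw [h7, v.map_mul, h6, hva] at ha'
    norm_num at ha'
  have h3 : Polynomial.aeval (ζ ^ p ^ f) P = 0 := by
    have h4 := (Polynomial.mem_roots hmonic.ne_zero).1 ha
    rw [Polynomial.IsRoot, hPC, Polynomial.eval_map_algebraMap] at h4
    rwa [h2]
  exact minpoly.exists_algEquiv_of_root' hint.isAlgebraic h3

end FrobAux

open FrobAux in
theorem frob_of (k : Type*) [NormedField k] [CharZero k] (C : Type*) [Field C] [Algebra k C]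
    [IsAlgClosure k C] (v : AbsoluteValue C ℝ)
    (na : ∀ x y, v (x + y) ≤ max (v x) (v y)) (hb : ∀ c : k, v (algebraMap k C c) = ‖c‖)
    (hi : ∀ (g : C ≃ₐ[k] C) (x : C), v (g x) = v x)
    (p f : ℕ) (hp : p.Prime) (hf : 0 < f) (hv : v (p : C) < 1)
    (hr : ∀ (m : ℕ) (ζ : C), ¬ p ∣ m → ζ ^ m = 1 → ζ ≠ 1 → v (ζ - 1) = 1)
    (hq : ∀ c : k, ‖c‖ ≤ 1 → ‖c ^ p ^ f - c‖ < 1)
    (hS : ∀ S : Finset C, (∀ x ∈ S, v x ≤ 1) →
      ∃ m, 0 < m ∧ ∀ x ∈ S, v (x ^ (p ^ f) ^ m - x) < 1)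
    (S : Finset C) (m : ℕ) (hSv : ∀ x ∈ S, v x ≤ 1) :
    ∃ g : C ≃ₐ[k] C, ∀ x ∈ S, v (g x - x ^ (p ^ f) ^ m) < 1 := by
  have : IsAlgClosed C := IsAlgClosure.isAlgClosed k
  have : CharZero C := charZero_of_injective_algebraMap (algebraMap k C).injective
  obtain ⟨M, hM, hx⟩ := hS S hSv
  have hq1 : 1 < p ^ f := Nat.one_lt_pow hf.ne' hp.one_lt
  have hQ1 : 1 < (p ^ f) ^ M := Nat.one_lt_pow hM.ne' hq1
  obtain ⟨N, hN⟩ : ∃ N, (p ^ f) ^ M = N + 1 := ⟨(p ^ f) ^ M - 1, by omega⟩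
  have hN0 : 0 < N := by omega
  have hpN : ¬ p ∣ N := by
    intro h
    have h1 : p ∣ N + 1 := by
      rw [← hN]
      exact dvd_pow (dvd_pow_self p hf.ne') hM.ne'
    exact hp.one_lt.ne' (Nat.dvd_one.1 ((Nat.dvd_add_right h).1 h1))
  have : NeZero N := ⟨hN0.ne'⟩
  have : NeZero (N : C) := ⟨by exact_mod_cast hN0.ne'⟩
  obtain ⟨ζ, hζ⟩ := HasEnoughRootsOfUnity.exists_primitiveRoot C N
  obtain ⟨σ, hσ⟩ := frob_one k C v na hb p f hp hv hr hq hN0.ne' hpN hζ.pow_eq_one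
  have hpow : ∀ n : ℕ, (σ ^ n) ζ = ζ ^ (p ^ f) ^ n := by
    intro n
    induction n with
    | zero => simp
    | succ n ih =>
      rw [pow_succ, AlgEquiv.mul_apply, hσ, map_pow, ih, ← pow_mul, ← pow_succ]
  have hvζ : v ζ = 1 := v_root v hN0.ne' hζ.pow_eq_one
  refine ⟨σ ^ m, fun x hxS => ?_⟩
  have hq0 : (p ^ f) ^ m ≠ 0 := pow_ne_zero _ (by omega)
  rcases teich v hN0 hζ (x := x) (by rw [← hN]; exact hx x hxS) with h | ⟨i, h⟩
  · refine lt_of_le_of_lt (sub_le v na _ _) (max_lt ?_ ?_)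
    · rw [hi]; exact h
    · rw [v.map_pow]
      exact pow_lt_one₀ (v.nonneg _) h hq0
  · have hvi : v (ζ ^ i) = 1 := by rw [v.map_pow, hvζ, one_pow]
    have h1 : (σ ^ m) x - x ^ (p ^ f) ^ m =
        (σ ^ m) (x - ζ ^ i) - (x ^ (p ^ f) ^ m - (ζ ^ i) ^ (p ^ f) ^ m) := by
      rw [map_sub, map_pow, hpow, pow_right_comm]
      ring
    rw [h1]
    refine lt_of_le_of_lt (sub_le v na _ _) (max_lt ?_ ?_)
    · rw [hi]; exact h
    · exact pow_sub_lt v na _ (hSv x hxS) hvi.le h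

end Pool.Agent.Lib.MP_c385f6_ag.RT
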