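import Mathlib
import Pool.Agent.Lib.MP_c385f6_ag.RT.Defs

set_option autoImplicit false

/-!
Project RT: roots of unity and the residue field of a nonarchimedean absolute value.
-/

namespace Pool.Agent.Lib.MP_c385f6_ag.RT

universe u

namespace RootAux

variable {C : Type*} [Field C] (v : AbsoluteValue C ℝ)
  (na : ∀ x y, v (x + y) ≤ max (v x) (v y))
include na

lemma add_lt {x y : C} {c : ℝ} (hx : v x < c) (hy : v y < c) : v (x + y) < c :=
  lt_of_le_of_lt (na x y) (max_lt hx hy)

lemma add_le {x y : C} {c : ℝ} (hx : v x ≤ c) (hy : v y ≤ c) : v (x + y) ≤ c :=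
  (na x y).trans (max_le hx hy)

lemma nat_le (n : ℕ) : v (n : C) ≤ 1 := by
  induction n with
  | zero => simp
  | succ n ih =>
    rw [Nat.cast_succ]
    exact add_le v na ih (by rw [map_one])

lemma int_le (n : ℤ) : v (n : C) ≤ 1 := by
  obtain ⟨m, rfl | rfl⟩ := n.eq_nat_or_neg
  · rw [Int.cast_natCast]
    exact nat_le v na m
  · rw [Int.cast_neg, Int.cast_natCast, AbsoluteValue.map_neg]
    exact nat_le v na m

end RootAux

open RootAux

theorem root_of {C : Type*} [Field C] (v : AbsoluteValue C ℝ)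
    (na : ∀ x y, v (x + y) ≤ max (v x) (v y)) (p : ℕ) (hp : p.Prime) (hv : v (p : C) < 1) :
    (∀ m : ℕ, ¬ p ∣ m → v (m : C) = 1) ∧
    (∀ (m : ℕ) (ζ : C), ¬ p ∣ m → ζ ^ m = 1 → ζ ≠ 1 → v (ζ - 1) = 1) := by
  have h1 : ∀ m : ℕ, ¬ p ∣ m → v (m : C) = 1 := by
    intro m hm
    refine le_antisymm (nat_le v na m) ?_
    by_contra hlt
    push Not at hlt
    have hco : Nat.Coprime p m := (Nat.Prime.coprime_iff_not_dvd hp).2 hm
    have hb := Nat.gcd_eq_gcd_ab p m
    rw [hco.gcd_eq_one] at hb
    have hb' : (1 : C) = p * ((Nat.gcdA p m : ℤ) : C) + m * ((Nat.gcdB p m : ℤ) : C) := by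
      exact_mod_cast congrArg (fun z : ℤ => (z : C)) hb
    have h2 : v (1 : C) < 1 := by
      rw [hb']
      refine add_lt v na ?_ ?_
      · rw [map_mul]
        exact mul_lt_one_of_nonneg_of_lt_one_left (v.nonneg _) hv (int_le v na _)
      · rw [map_mul]
        exact mul_lt_one_of_nonneg_of_lt_one_left (v.nonneg _) hlt (int_le v na _)
    rw [map_one] at h2
    exact lt_irrefl _ h2
  refine ⟨h1, ?_⟩
  intro m ζ hm hζ hne
  have hm0 : m ≠ 0 := by
    rintro rfl
    exact hm (dvd_zero p)
  have hvζ : v ζ = 1 := by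
    have h2 : v ζ ^ m = 1 := by rw [← map_pow, hζ, map_one]
    exact (pow_eq_one_iff_of_nonneg (v.nonneg _) hm0).1 h2
  refine le_antisymm ?_ ?_
  · rw [sub_eq_add_neg]
    refine add_le v na hvζ.le ?_
    rw [AbsoluteValue.map_neg, map_one]
  · by_contra hlt
    push Not at hlt
    have hpow : ∀ i : ℕ, v (ζ ^ i - 1) < 1 := by
      intro i
      induction i with
      | zero => simp
      | succ i ih =>
        have e : ζ ^ (i + 1) - 1 = ζ * (ζ ^ i - 1) + (ζ - 1) := by ring
        rw [e]
        refine add_lt v na ?_ hlt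
        rw [map_mul, hvζ, one_mul]
        exact ih
    have hsum : ∑ i ∈ Finset.range m, ζ ^ i = 0 := by
      have h3 := mul_geom_sum ζ m
      rw [hζ, sub_self] at h3
      exact (mul_eq_zero.1 h3).resolve_left (sub_ne_zero.2 hne)
    have hlt2 : ∀ j : ℕ, v (∑ i ∈ Finset.range j, (ζ ^ i - 1)) < 1 := by
      intro j
      induction j with
      | zero => simp
      | succ j ih =>
        rw [Finset.sum_range_succ]
        exact add_lt v na ih (hpow j)
    have h4 := hlt2 m
    rw [Finset.sum_sub_distrib, hsum, Finset.sum_const, Finset.card_range, nsmul_eq_mul, mul_one,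
      zero_sub, AbsoluteValue.map_neg, h1 m hm] at h4
    exact lt_irrefl _ h4

theorem exists_res {C : Type u} [Field C] (v : AbsoluteValue C ℝ)
    (na : ∀ x y, v (x + y) ≤ max (v x) (v y)) :
    ∃ (O : Subring C) (F : Type u) (_ : Field F) (ρ : O →+* F), (∀ x, x ∈ O ↔ v x ≤ 1) ∧
      Function.Surjective ρ ∧ ∀ x : O, ρ x = 0 ↔ v (x : C) < 1 := by
  let O : Subring C :=
    { carrier := {x | v x ≤ 1}
      mul_mem' := fun {a b} ha hb => by
        change v (a * b) ≤ 1
        rw [map_mul]
        exact mul_le_one₀ ha (v.nonneg _) hb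
      one_mem' := by simp
      add_mem' := fun {a b} ha hb => add_le v na ha hb
      zero_mem' := by simp
      neg_mem' := fun {a} ha => by
        change v (-a) ≤ 1
        rw [AbsoluteValue.map_neg]
        exact ha }
  let M : Ideal O :=
    { carrier := {x | v (x : C) < 1}
      add_mem' := fun {a b} ha hb => add_lt v na ha hb
      zero_mem' := by simp
      smul_mem' := fun a b hb => by
        change v ((a : C) * (b : C)) < 1
        rw [map_mul]
        exact mul_lt_one_of_nonneg_of_lt_one_right a.2 (v.nonneg _) hb }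
  have hMm : ∀ x : O, x ∈ M ↔ v (x : C) < 1 := fun x => Iff.rfl
  have hmax : M.IsMaximal := by
    rw [Ideal.isMaximal_iff]
    refine ⟨?_, ?_⟩
    · rw [hMm]
      simp
    · intro J x _ hx hxJ
      have h1 : v (x : C) = 1 := by
        refine le_antisymm x.2 ?_
        by_contra h
        exact hx (not_le.1 h)
      have h0 : (x : C) ≠ 0 := by
        intro h
        rw [h, map_zero] at h1
        exact zero_ne_one h1
      have hinv : v (x : C)⁻¹ ≤ 1 := by
        rw [map_inv₀, h1, inv_one]
      have h2 : (⟨(x : C)⁻¹, hinv⟩ : O) * x = 1 := by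
        apply Subtype.ext
        change (x : C)⁻¹ * (x : C) = 1
        exact inv_mul_cancel₀ h0
      rw [← h2]
      exact J.mul_mem_left _ hxJ
  refine ⟨O, O ⧸ M, Ideal.Quotient.field M, Ideal.Quotient.mk M, fun x => Iff.rfl,
    Ideal.Quotient.mk_surjective, fun x => ?_⟩
  rw [← hMm]
  exact Ideal.Quotient.eq_zero_iff_mem

end Pool.Agent.Lib.MP_c385f6_ag.RT
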