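import Mathlib
import Pool.Agent.Lib.MP_c385f6_ag.RT.Defs

set_option autoImplicit false

/-!
Project RT (module A4): an element of the algebraic closure which is fixed by inertia has a value
in the value group of `k`.
-/

namespace Pool.Agent.Lib.MP_c385f6_ag.RT

namespace UnrAux

open Polynomial

section
variable {C : Type*} [Field C] (v : AbsoluteValue C ℝ)

/-- A product of differences is small only if one of them is small. -/
theorem exists_near (x : C) (s : Multiset C) (h : v ((s.map (x - ·)).prod) < 1) :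
    ∃ a ∈ s, v (x - a) < 1 := by
  induction s using Multiset.induction_on with
  | empty =>
    simp at h
  | cons a s ih =>
    rw [Multiset.map_cons, Multiset.prod_cons, v.map_mul] at h
    by_cases h1 : v (x - a) < 1
    · exact ⟨a, Multiset.mem_cons_self a s, h1⟩
    · push Not at h1
      have h2 : v ((s.map (x - ·)).prod) < 1 := by
        have h3 : 0 ≤ v ((s.map (x - ·)).prod) := v.nonneg _
        nlinarith
      obtain ⟨b, hb, hb'⟩ := ih h2
      exact ⟨b, Multiset.mem_cons_of_mem hb, hb'⟩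

/-- An integral element with `x ^ Q` near `x` is near zero or near a root of unity. -/
theorem near_root [IsAlgClosed C] {Q : ℕ} (hQ : 1 < Q) (x : C) (h : v (x ^ Q - x) < 1) :
    ∃ ζ : C, (ζ = 0 ∨ ζ ^ (Q - 1) = 1) ∧ v (x - ζ) < 1 := by
  have hm : (X ^ Q - X : C[X]).Monic := monic_X_pow_sub (by rw [degree_X]; exact_mod_cast hQ)
  have hs : (X ^ Q - X : C[X]).Splits := IsAlgClosed.splits _
  have he := hs.eval_eq_prod_roots_of_monic hm x
  rw [eval_sub, eval_pow, eval_X] at he
  rw [he] at h
  obtain ⟨a, ha, ha'⟩ := exists_near v x _ h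
  refine ⟨a, ?_, ha'⟩
  have ha2 := isRoot_of_mem_roots ha
  rw [IsRoot.def, eval_sub, eval_pow, eval_X] at ha2
  by_cases h0 : a = 0
  · exact Or.inl h0
  · right
    have h3 : a * (a ^ (Q - 1) - 1) = 0 := by
      rw [mul_sub, mul_one, ← pow_succ', Nat.sub_add_cancel hQ.le]
      exact ha2
    exact sub_eq_zero.1 ((mul_eq_zero.1 h3).resolve_left h0)

variable (na : ∀ x y, v (x + y) ≤ max (v x) (v y))

/-- The ring of integers. -/
def OO : Subring C where
  carrier := {x | v x ≤ 1}
  mul_mem' := by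
    intro a b ha hb
    simp only [Set.mem_ofPred_eq] at *
    rw [v.map_mul]
    exact mul_le_one₀ ha (v.nonneg b) hb
  one_mem' := by simp
  add_mem' := by
    intro a b ha hb
    exact (na a b).trans (max_le ha hb)
  zero_mem' := by simp
  neg_mem' := by
    intro a ha
    simp only [Set.mem_ofPred_eq] at *
    rwa [v.map_neg]

/-- The maximal ideal. -/
def II : Ideal (OO v na) where
  carrier := {x | v (x : C) < 1}
  add_mem' := by
    intro a b ha hb
    exact (na a b).trans_lt (max_lt ha hb)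
  zero_mem' := by simp
  smul_mem' := by
    intro a b hb
    simp only [Set.mem_ofPred_eq, smul_eq_mul, Subring.coe_mul] at *
    rw [v.map_mul]
    have ha : v (a : C) ≤ 1 := a.2
    have h0 := v.nonneg (a : C)
    have h1 := v.nonneg (b : C)
    nlinarith

theorem mem_II (x : OO v na) : x ∈ II v na ↔ v (x : C) < 1 := Iff.rfl

instance : (II v na).IsPrime where
  ne_top' := by
    rw [Ideal.ne_top_iff_one, mem_II]
    simp
  mem_or_mem' := by
    intro x y h
    rw [mem_II, Subring.coe_mul, v.map_mul] at h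
    rw [mem_II, mem_II]
    by_contra hcon
    push Not at hcon
    nlinarith [hcon.1, hcon.2]

include na in
/-- A polynomial of small degree with integral coefficients which is small at many points has
small coefficients. -/
theorem coeff_small {d : ℕ} (a : ℕ → C) (ha : ∀ i, v (a i) ≤ 1) (s : Finset C) (hs : d ≤ s.card)
    (h1 : ∀ x ∈ s, v x ≤ 1) (h2 : ∀ x ∈ s, ∀ y ∈ s, x ≠ y → v (x - y) = 1)
    (h3 : ∀ x ∈ s, v (∑ i ∈ Finset.range d, a i * x ^ i) < 1) (j : ℕ) (hj : j < d) :
    v (a j) < 1 := by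
  classical
  let a' : ℕ → OO v na := fun i => ⟨a i, ha i⟩
  let P : (OO v na)[X] := ∑ i ∈ Finset.range d, Polynomial.C (a' i) * X ^ i
  let π := Ideal.Quotient.mk (II v na)
  have hPd : (P.map π).natDegree < d := by
    refine lt_of_le_of_lt (natDegree_map_le) ?_
    have h0 : 0 < d := by omega
    have : P.natDegree ≤ d - 1 := by
      refine natDegree_sum_le_of_forall_le _ _ fun i hi => ?_
      refine (natDegree_C_mul_X_pow_le _ _).trans ?_
      have := Finset.mem_range.1 hi
      omega
    omega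
  let f : s → OO v na ⧸ II v na := fun x => π ⟨x.1, h1 x.1 x.2⟩
  have hf : Function.Injective f := by
    intro x y hxy
    by_contra hne
    have hxy' : x.1 ≠ y.1 := fun h => hne (Subtype.ext h)
    have h4 : (⟨x.1, h1 x.1 x.2⟩ - ⟨y.1, h1 y.1 y.2⟩ : OO v na) ∈ II v na :=
      (Ideal.Quotient.eq).1 hxy
    rw [mem_II, AddSubgroupClass.coe_sub] at h4
    rw [h2 x.1 x.2 y.1 y.2 hxy'] at h4
    exact lt_irrefl _ h4
  have hz : P.map π = 0 := by
    refine eq_zero_of_natDegree_lt_card_of_eval_eq_zero _ hf (fun x => ?_) ?_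
    · rw [eval_map, eval₂_hom]
      refine Ideal.Quotient.eq_zero_iff_mem.2 ?_
      rw [mem_II]
      have h5 : ((P.eval ⟨x.1, h1 x.1 x.2⟩ : OO v na) : C) =
          ∑ i ∈ Finset.range d, a i * x.1 ^ i := by
        rw [eval_finsetSum]
        push_cast
        refine Finset.sum_congr rfl fun i _ => ?_
        simp [a']
      rw [h5]
      exact h3 x.1 x.2
    · rw [Fintype.card_coe]
      omega
  have hc := congrArg (fun Q => coeff Q j) hz
  simp only [coeff_map, coeff_zero] at hc
  have h6 : P.coeff j = a' j := by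
    simp only [P, finsetSum_coeff, coeff_C_mul, coeff_X_pow, mul_ite, mul_one, mul_zero,
      Finset.sum_ite_eq, Finset.mem_range, if_pos hj]
  rw [h6] at hc
  exact (Ideal.Quotient.eq_zero_iff_mem.1 hc)

end

end UnrAux

open Polynomial UnrAux

-- A4 RT/Unr.lean
theorem unr_of (k : Type*) [NormedField k] [CharZero k] (C : Type*) [Field C] [Algebra k C]
    [IsAlgClosure k C] (v : AbsoluteValue C ℝ)
    (na : ∀ x y, v (x + y) ≤ max (v x) (v y)) (hb : ∀ c : k, v (algebraMap k C c) = ‖c‖)
    (hi : ∀ (g : C ≃ₐ[k] C) (x : C), v (g x) = v x)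
    (p f : ℕ) (hp : p.Prime) (hf : 0 < f) (hv : v (p : C) < 1)
    (hr : ∀ (m : ℕ) (ζ : C), ¬ p ∣ m → ζ ^ m = 1 → ζ ≠ 1 → v (ζ - 1) = 1)
    (hS : ∀ S : Finset C, (∀ x ∈ S, v x ≤ 1) →
      ∃ m, 0 < m ∧ ∀ x ∈ S, v (x ^ (p ^ f) ^ m - x) < 1)
    (b : C) (h : ∀ g ∈ Inert k v, g b = b) : ∃ c : k, v b = ‖c‖ := by
  classical
  have : IsAlgClosed C := IsAlgClosure.isAlgClosed k
  have : Algebra.IsAlgebraic k C := IsAlgClosure.isAlgebraic
  have : CharZero C := charZero_of_injective_algebraMap (algebraMap k C).injective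
  have : IsGalois k C := {}
  have _ := hv
  -- automorphisms which fix the roots of unity of order prime to `p`
  let μ : Set C := {ζ | ∃ m, ¬ p ∣ m ∧ ζ ^ m = 1}
  have hin : ∀ g : C ≃ₐ[k] C, (∀ ζ ∈ μ, g ζ = ζ) → g ∈ Inert k v := by
    intro g hg x hx
    obtain ⟨m, hm, hx'⟩ := hS {x} (by simpa using hx)
    have hx2 := hx' x (Finset.mem_singleton_self x)
    have hQ : 1 < (p ^ f) ^ m := by
      rw [← pow_mul]
      exact Nat.one_lt_pow (Nat.mul_pos hf hm).ne' hp.one_lt
    obtain ⟨ζ, hζ, hxζ⟩ := near_root v hQ x hx2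
    have hgζ : g ζ = ζ := by
      rcases hζ with rfl | hζ
      · exact map_zero g
      · refine hg ζ ⟨(p ^ f) ^ m - 1, ?_, hζ⟩
        intro hd
        have h1 : p ∣ (p ^ f) ^ m := by
          rw [← pow_mul]
          exact dvd_pow_self p (Nat.mul_pos hf hm).ne'
        have h2 : p ∣ 1 := by
          have h3 := (Nat.dvd_sub h1 hd)
          rwa [Nat.sub_sub_self hQ.le] at h3
        exact hp.one_lt.ne' (Nat.dvd_one.1 h2)
    have e1 : g x - x = g (x - ζ) + -(x - ζ) := by
      rw [map_sub, hgζ]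
      ring
    rw [e1]
    refine (na _ _).trans_lt (max_lt ?_ ?_)
    · rwa [hi]
    · rwa [v.map_neg]
  have hb1 : b ∈ IntermediateField.adjoin k μ := by
    rw [← InfiniteGalois.fixedField_fixingSubgroup (IntermediateField.adjoin k μ),
      IntermediateField.mem_fixedField_iff]
    intro g hg
    refine h g (hin g fun ζ hζ => ?_)
    exact (IntermediateField.mem_fixingSubgroup_iff _ _).1 hg ζ
      (IntermediateField.subset_adjoin k μ hζ)
  -- one root of unity is enough
  obtain ⟨T, hT, hbT⟩ := IntermediateField.exists_finset_of_mem_adjoin hb1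
  have hM : ∃ M : ℕ, ¬ p ∣ M ∧ ∀ ζ ∈ T, ζ ^ M = 1 := by
    clear hbT
    induction T using Finset.induction_on with
    | empty => exact ⟨1, fun hd => hp.one_lt.ne' (Nat.dvd_one.1 hd), by simp⟩
    | insert a T _ ih =>
      obtain ⟨M, hM, hM'⟩ := ih fun x hx => hT (by
        rw [Finset.coe_insert]
        exact Set.mem_insert_of_mem _ hx)
      obtain ⟨m, hm, hm'⟩ := hT (by
        rw [Finset.coe_insert]
        exact Set.mem_insert a _ : a ∈ ((insert a T : Finset C) : Set C))
      refine ⟨m * M, fun hd => ?_, fun ζ hζ => ?_⟩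
      · rcases (hp.dvd_mul.1 hd) with h1 | h1
        · exact hm h1
        · exact hM h1
      · rcases Finset.mem_insert.1 hζ with rfl | hζ
        · rw [pow_mul, hm', one_pow]
        · rw [mul_comm, pow_mul, hM' ζ hζ, one_pow]
  obtain ⟨M, hM, hM'⟩ := hM
  have hM0 : M ≠ 0 := by
    rintro rfl
    exact hM (dvd_zero p)
  have : NeZero (M : C) := ⟨by exact_mod_cast hM0⟩
  have : NeZero M := ⟨hM0⟩
  obtain ⟨ζ, hζ⟩ := HasEnoughRootsOfUnity.exists_primitiveRoot C M
  have hbζ : b ∈ IntermediateField.adjoin k {ζ} := by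
    refine (IntermediateField.adjoin_le_iff.2 ?_) hbT
    intro x hx
    obtain ⟨i, -, hi'⟩ := hζ.eq_pow_of_pow_eq_one (hM' x hx)
    rw [← hi']
    exact pow_mem (IntermediateField.mem_adjoin_simple_self k ζ) i
  -- the element as a polynomial
  have hζa : IsAlgebraic k ζ := Algebra.IsAlgebraic.isAlgebraic ζ
  have hζi : IsIntegral k ζ := hζa.isIntegral
  obtain ⟨P, hPd, hPb⟩ : ∃ P : k[X], P.natDegree < (minpoly k ζ).natDegree ∧ aeval ζ P = b := by
    have h1 : b ∈ (IntermediateField.adjoin k {ζ}).toSubalgebra := hbζ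
    rw [IntermediateField.adjoin_simple_toSubalgebra_of_isAlgebraic hζa,
      Algebra.adjoin_singleton_eq_range_aeval] at h1
    obtain ⟨P, hP⟩ := h1
    refine ⟨P %ₘ minpoly k ζ, natDegree_modByMonic_lt P (minpoly.monic hζi) (minpoly.ne_one k ζ),
      ?_⟩
    rw [minpoly.aeval_modByMonic_minpoly]
    exact hP
  by_cases hP0 : P = 0
  · refine ⟨0, ?_⟩
    rw [← hPb, hP0]
    simp
  -- the coefficient of maximal norm
  set d := (minpoly k ζ).natDegree with hd
  obtain ⟨j, hjr, hj⟩ := Finset.exists_max_image (Finset.range d) (fun i => ‖P.coeff i‖)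
    ⟨0, Finset.mem_range.2 (by omega)⟩
  have hjd : j < d := Finset.mem_range.1 hjr
  have hall : ∀ i, ‖P.coeff i‖ ≤ ‖P.coeff j‖ := by
    intro i
    by_cases hi' : i < d
    · exact hj i (Finset.mem_range.2 hi')
    · rw [coeff_eq_zero_of_natDegree_lt (by omega), norm_zero]
      exact norm_nonneg _
  have hj0 : P.coeff j ≠ 0 := by
    intro h0
    apply hP0
    ext i
    have h1 := hall i
    rw [h0, norm_zero] at h1
    rw [coeff_zero]
    exact norm_le_zero_iff.1 h1
  have hjn : 0 < ‖P.coeff j‖ := norm_pos_iff.2 hj0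
  let a : ℕ → C := fun i => algebraMap k C (P.coeff i / P.coeff j)
  have ha : ∀ i, v (a i) ≤ 1 := by
    intro i
    simp only [a]
    rw [hb, norm_div]
    exact div_le_one_of_le₀ (hall i) hjn.le
  have hζ1 : ∀ x : C, x ^ M = 1 → v x = 1 := by
    intro x hx
    have h1 : v x ^ M = 1 := by rw [← map_pow, hx, v.map_one]
    exact (pow_eq_one_iff_of_nonneg (v.nonneg x) hM0).1 h1
  have hsum : ∀ x : C, algebraMap k C (P.coeff j) * ∑ i ∈ Finset.range d, a i * x ^ i =
      aeval x P := by
    intro x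
    rw [aeval_eq_sum_range' hPd, Finset.mul_sum]
    refine Finset.sum_congr rfl fun i _ => ?_
    simp only [a]
    rw [Algebra.smul_def, ← mul_assoc, ← map_mul, mul_div_cancel₀ _ hj0]
  have hle : v (∑ i ∈ Finset.range d, a i * ζ ^ i) ≤ 1 := by
    have h1 : ∀ n : ℕ, v (∑ i ∈ Finset.range n, a i * ζ ^ i) ≤ 1 := by
      intro n
      induction n with
      | zero => simp
      | succ n ih =>
        rw [Finset.sum_range_succ]
        refine (na _ _).trans (max_le ih ?_)
        rw [v.map_mul, map_pow, hζ1 ζ hζ.pow_eq_one, one_pow, mul_one]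
        exact ha n
    exact h1 d
  refine ⟨P.coeff j, ?_⟩
  rw [← hPb, ← hsum ζ, v.map_mul, hb]
  suffices hs : ¬ v (∑ i ∈ Finset.range d, a i * ζ ^ i) < 1 by
    rw [le_antisymm hle (not_lt.1 hs), mul_one]
  intro hlt
  -- the conjugates of the root of unity
  let s : Finset C := ((minpoly k ζ).rootSet C).toFinset
  have hsc : s.card = d := by
    simp only [s]
    rw [Set.toFinset_card, card_rootSet_eq_natDegree (Algebra.IsSeparable.isSeparable k ζ)
      (IsAlgClosed.splits _)]
  have hconj : ∀ x ∈ s, ∃ g : C ≃ₐ[k] C, g ζ = x := by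
    intro x hx
    rw [Set.mem_toFinset] at hx
    exact minpoly.exists_algEquiv_of_root' hζa (aeval_eq_zero_of_mem_rootSet hx)
  have hpow : ∀ x ∈ s, x ^ M = 1 := by
    intro x hx
    obtain ⟨g, rfl⟩ := hconj x hx
    rw [← map_pow, hζ.pow_eq_one, map_one]
  have hcs := coeff_small v na (d := d) a ha s hsc.ge (fun x hx => (hζ1 x (hpow x hx)).le)
    (fun x hx y hy hxy => ?_) (fun x hx => ?_) j hjd
  · simp only [a] at hcs
    rw [div_self hj0, map_one, v.map_one] at hcs
    exact lt_irrefl _ hcs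
  · have hy0 : y ≠ 0 := by
      rintro rfl
      have := hpow 0 hy
      rw [zero_pow hM0] at this
      exact zero_ne_one this
    have e1 : x - y = y * (x / y - 1) := by field_simp
    rw [e1, v.map_mul, hζ1 y (hpow y hy), one_mul]
    refine hr M _ hM ?_ ?_
    · rw [div_pow, hpow x hx, hpow y hy, div_one]
    · intro h1
      exact hxy ((div_eq_one_iff_eq hy0).1 h1)
  · obtain ⟨g, rfl⟩ := hconj x hx
    have e1 : ∑ i ∈ Finset.range d, a i * g ζ ^ i = g (∑ i ∈ Finset.range d, a i * ζ ^ i) := by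
      rw [map_sum]
      refine Finset.sum_congr rfl fun i _ => ?_
      rw [map_mul, map_pow]
      simp only [a]
      rw [AlgEquiv.commutes]
    rw [e1, hi]
    exact hlt

end Pool.Agent.Lib.MP_c385f6_ag.RT
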